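import Pool.Agent.H78.CM.Asm

/-!
# MP_308708_lc: the implication holds in all permutation models

A permutation model is given by a group `G` of permutations of the atoms and a filter `F` of
subgroups of `G`. A set `X` of the model carries an action of its symmetry group `A ∈ F`, the
stabiliser of each of its elements is in `F`, and the subsets of `X`, the families of subsets of
`X` and the functions between such sets which belong to the model are those which are invariant
under a subgroup in `F`. Pure sets (natural numbers, reals) are the true ones, with trivial action.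
-/

set_option autoImplicit false

open Set Topology Metric

universe u v

namespace Pool.Agent.Results.MP_308708_lc.PermutationModels

/-- `F` is a filter of subgroups of `G`. -/
structure SubgroupFilter {G : Type u} [Group G] (F : Set (Subgroup G)) : Prop where
  top_mem : ⊤ ∈ F
  inf_mem : ∀ H ∈ F, ∀ K ∈ F, H ⊓ K ∈ F
  mono : ∀ H ∈ F, ∀ K, H ≤ K → K ∈ F

/-- The property `P` holds for all elements of `A` which belong to some subgroup in `F`. If `P a`
says that an object is invariant under `a`, this says that the object belongs to the model. -/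
def InModel {G : Type u} [Group G] (F : Set (Subgroup G)) (A : Subgroup G) (P : A → Prop) : Prop :=
  ∃ B ∈ F, ∀ a : A, (a : G) ∈ B → P a

/-- `CAC_fin` in the model: every sequence of nonempty finite sets has a choice function. -/
def CACfin {G : Type u} [Group G] (F : Set (Subgroup G)) : Prop :=
  ∀ A ∈ F, ∀ (Y : ℕ → Type) [∀ n, MulAction A (Y n)] [∀ n, Finite (Y n)] [∀ n, Nonempty (Y n)],
    (∀ n (y : Y n), InModel F A fun a => a • y = y) →
    ∃ f : ∀ n, Y n, InModel F A fun a => ∀ n, a • f n = f n

/-- The space `X` of the model is compact in the model: each family `𝒰` of open sets which belongs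
to the model and covers `X` has a finite subfamily which covers `X`. -/
def CompactInModel {G : Type u} [Group G] (F : Set (Subgroup G)) (A : Subgroup G) (X : Type v)
    [TopologicalSpace X] [MulAction A X] : Prop :=
  ∀ 𝒰 : Set (Set X), (∀ U ∈ 𝒰, IsOpen U ∧ InModel F A fun a => ∀ x, a • x ∈ U ↔ x ∈ U) →
    (InModel F A fun a => ∀ U, (fun x => a • x) ⁻¹' U ∈ 𝒰 ↔ U ∈ 𝒰) →
    ⋃₀ 𝒰 = univ → ∃ 𝒱 ⊆ 𝒰, 𝒱.Finite ∧ ⋃₀ 𝒱 = univ

/-- The set `X` of the model is countable in the model. -/
def CountableInModel {G : Type u} [Group G] (F : Set (Subgroup G)) (A : Subgroup G) (X : Type v)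
    [MulAction A X] : Prop :=
  ∃ f : X → ℕ, Function.Injective f ∧ InModel F A fun a => ∀ x, f (a • x) = f x

/-- the action of a group on (the numbers of) the cosets of a subgroup of finite index of another
group, through a homomorphism -/
@[instance_reducible] noncomputable def quotAct {K : Type v} [Group K] (U : Subgroup K) [Finite (K ⧸ U)] {A : Type u}
    [Group A] (ρ : A →* K) : MulAction A (Fin (Nat.card (K ⧸ U))) where
  smul a i := Finite.equivFin (K ⧸ U) (ρ a • (Finite.equivFin (K ⧸ U)).symm i)
  one_smul i := by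
    show Finite.equivFin (K ⧸ U) (ρ 1 • (Finite.equivFin (K ⧸ U)).symm i) = i
    rw [map_one, one_smul, Equiv.apply_symm_apply]
  mul_smul a b i := by
    show Finite.equivFin (K ⧸ U) (ρ (a * b) • (Finite.equivFin (K ⧸ U)).symm i) =
      Finite.equivFin (K ⧸ U) (ρ a • (Finite.equivFin (K ⧸ U)).symm
        (Finite.equivFin (K ⧸ U) (ρ b • (Finite.equivFin (K ⧸ U)).symm i)))
    rw [map_mul, mul_smul, Equiv.symm_apply_apply]

theorem quotAct_iff {K : Type v} [Group K] (U : Subgroup K) [U.Normal] [Finite (K ⧸ U)]
    {A : Type u} [Group A] (ρ : A →* K) (a : A) (i : Fin (Nat.card (K ⧸ U))) :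
    (quotAct U ρ).toSMul.smul a i = i ↔ ρ a ∈ U := by
  have hnor : U.Normal := inferInstance
  have h1 : (quotAct U ρ).toSMul.smul a i = i ↔
      ρ a • (Finite.equivFin (K ⧸ U)).symm i = (Finite.equivFin (K ⧸ U)).symm i := by
    show Finite.equivFin (K ⧸ U) (ρ a • (Finite.equivFin (K ⧸ U)).symm i) = i ↔ _
    rw [← Equiv.eq_symm_apply]
  rw [h1]
  obtain ⟨k, hk⟩ := QuotientGroup.mk_surjective ((Finite.equivFin (K ⧸ U)).symm i)
  rw [← hk]
  show ((ρ a * k : K) : K ⧸ U) = k ↔ _
  rw [eq_comm, QuotientGroup.eq]
  constructor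
  · intro h
    have h2 := hnor.conj_mem _ h k
    have h3 : k * (k⁻¹ * (ρ a * k)) * k⁻¹ = ρ a := by group
    rwa [h3] at h2
  · intro h
    have h2 := hnor.conj_mem _ h k⁻¹
    have h3 : k⁻¹ * ρ a * k⁻¹⁻¹ = k⁻¹ * (ρ a * k) := by group
    rwa [h3] at h2

section

variable {G : Type u} [Group G] {F : Set (Subgroup G)}

theorem InModel.and (hF : SubgroupFilter F) {A : Subgroup G} {P Q : A → Prop}
    (hP : InModel F A P) (hQ : InModel F A Q) : InModel F A fun a => P a ∧ Q a := by
  obtain ⟨B, hB, h1⟩ := hP
  obtain ⟨C, hC, h2⟩ := hQ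
  exact ⟨B ⊓ C, hF.inf_mem B hB C hC, fun a ha => ⟨h1 a ha.1, h2 a ha.2⟩⟩

theorem InModel.imp {A : Subgroup G} {P Q : A → Prop}
    (hP : InModel F A P) (h : ∀ a, P a → Q a) : InModel F A Q := by
  obtain ⟨B, hB, h1⟩ := hP
  exact ⟨B, hB, fun a ha => h a (h1 a ha)⟩

theorem InModel.of_all (hF : SubgroupFilter F) {A : Subgroup G} {P : A → Prop} (h : ∀ a, P a) :
    InModel F A P := ⟨⊤, hF.top_mem, fun a _ => h a⟩

theorem InModel.allFin (hF : SubgroupFilter F) {A : Subgroup G} {ι : Type v} (s : Finset ι)
    {P : ι → A → Prop} (h : ∀ i ∈ s, InModel F A (P i)) :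
    InModel F A fun a => ∀ i ∈ s, P i a := by
  classical
  induction s using Finset.induction_on with
  | empty => exact InModel.of_all hF (fun a i hi => absurd hi (Finset.notMem_empty i))
  | insert i s _ ih =>
    have h1 := h i (Finset.mem_insert_self i s)
    have h2 := ih fun j hj => h j (Finset.mem_insert_of_mem hj)
    refine (h1.and hF h2).imp fun a ha j hj => ?_
    rcases Finset.mem_insert.1 hj with rfl | hj
    · exact ha.1
    · exact ha.2 j hj

variable {A : Subgroup G} {X : Type v} [MetricSpace X] [MulAction A X]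

theorem totallyBounded (hF : SubgroupFilter F)
    (hiso : ∀ (a : A) (x y : X), dist (a • x) (a • y) = dist x y)
    (hst : ∀ x : X, InModel F A fun a => a • x = x) (hc : CompactInModel F A X) :
    TotallyBounded (univ : Set X) := by
  rw [Metric.totallyBounded_iff]
  intro ε hε
  have hpre : ∀ (a : A) (x : X), (fun y => a • y) ⁻¹' ball x ε = ball (a⁻¹ • x) ε := by
    intro a x
    ext y
    rw [mem_preimage, mem_ball, mem_ball, ← hiso a y (a⁻¹ • x), smul_inv_smul]
  obtain ⟨𝒱, hV, hfin, hcov⟩ := hc (range fun x : X => ball x ε) (by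
      rintro U ⟨x, rfl⟩
      refine ⟨isOpen_ball, (hst x).imp fun a ha y => ?_⟩
      rw [mem_ball, mem_ball, ← ha, hiso, ha])
    (InModel.of_all hF fun a U => by
      constructor
      · rintro ⟨x, hx⟩
        refine ⟨a • x, ?_⟩
        have h1 := congrArg (fun S => (fun y => a⁻¹ • y) ⁻¹' S) hx
        simp only [hpre a⁻¹ x, inv_inv] at h1
        show ball (a • x) ε = U
        rw [h1, ← preimage_comp]
        have : ((fun y : X => a • y) ∘ fun y => a⁻¹ • y) = id := by
          funext y; simp
        rw [this, preimage_id]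
      · rintro ⟨x, rfl⟩
        exact ⟨a⁻¹ • x, (hpre a x).symm⟩)
    (by
      rw [sUnion_range]
      exact eq_univ_of_forall fun x => mem_iUnion.2 ⟨x, mem_ball_self hε⟩)
  choose c hc' using hV
  refine ⟨(fun V : 𝒱 => c V.2) '' univ, ?_, ?_⟩
  · have : Finite 𝒱 := hfin
    exact finite_univ.image _
  · intro x _
    have hx : x ∈ ⋃₀ 𝒱 := by rw [hcov]; trivial
    obtain ⟨V, hV, hxV⟩ := hx
    refine mem_iUnion₂.2 ⟨c hV, ⟨⟨V, hV⟩, trivial, rfl⟩, ?_⟩
    have := hc' hV
    show x ∈ ball (c hV) ε
    rw [show ball (c hV) ε = V from this]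
    exact hxV

open UniformSpace

/-- the isometry of the completion given by an element of the group -/
noncomputable def rho [IsIsometricSMul A X] [UniformContinuousConstSMul A X] :
    A →* (Completion X ≃ᵢ Completion X) where
  toFun a := ⟨MulAction.toPerm a, by
    have h : Isometry (Completion.map fun x : X => a • x) := (isometry_smul X a).completion_map
    exact h⟩
  map_one' := by
    apply IsometryEquiv.ext
    intro y
    exact one_smul A y
  map_mul' a b := by
    apply IsometryEquiv.ext
    intro y
    exact mul_smul a b y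

theorem rho_apply [IsIsometricSMul A X] [UniformContinuousConstSMul A X] (a : A)
    (y : Completion X) : rho a y = a • y := rfl

/-- points of the completion which are fixed by a subgroup in `F` belong to the space -/
theorem fixed_mem [IsIsometricSMul A X] [UniformContinuousConstSMul A X]
    (hc : CompactInModel F A X) (p : Completion X)
    (hp : InModel F A fun a => a • p = p) : ∃ x : X, (x : Completion X) = p := by
  by_contra hcon
  push Not at hcon
  obtain ⟨B, hB, hBp⟩ := hp
  have hdist : ∀ (a : A) (x y : Completion X), dist (a • x) (a • y) = dist x y := fun a x y =>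
    (rho (X := X) a).dist_eq x y
  have hinv : ∀ (a : A), (a : G) ∈ B → ∀ (n : ℕ) (x : X),
      a • x ∈ {x : X | 1 / ((n : ℝ) + 1) < dist (x : Completion X) p} ↔
      x ∈ {x : X | 1 / ((n : ℝ) + 1) < dist (x : Completion X) p} := by
    intro a ha n x
    show 1 / ((n : ℝ) + 1) < dist ((a • x : X) : Completion X) p ↔
      1 / ((n : ℝ) + 1) < dist (x : Completion X) p
    rw [Completion.coe_smul]
    nth_rewrite 1 [← hBp a ha]
    rw [hdist]
  have hinv2 : ∀ (a : A), (a : G) ∈ B → ∀ (n : ℕ), (fun x => a • x) ⁻¹'
      {x : X | 1 / ((n : ℝ) + 1) < dist (x : Completion X) p} =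
      {x : X | 1 / ((n : ℝ) + 1) < dist (x : Completion X) p} := fun a ha n => by
    ext x; exact hinv a ha n x
  obtain ⟨𝒱, hV, hfin, hcov⟩ := hc
    (range fun n : ℕ => {x : X | 1 / ((n : ℝ) + 1) < dist (x : Completion X) p}) (by
      rintro U ⟨n, rfl⟩
      refine ⟨?_, B, hB, fun a ha x => hinv a ha n x⟩
      exact isOpen_lt continuous_const
        ((Completion.continuous_coe X).dist continuous_const))
    ⟨B, hB, fun a ha U => by
      constructor
      · rintro ⟨n, hn⟩
        refine ⟨n, ?_⟩
        have h1 := congrArg (fun S => (fun y => a⁻¹ • y) ⁻¹' S) hn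
        have ha' : ((a⁻¹ : A) : G) ∈ B := by
          rw [Subgroup.coe_inv]; exact B.inv_mem ha
        simp only [hinv2 a⁻¹ ha' n] at h1
        show {x : X | 1 / ((n : ℝ) + 1) < dist (x : Completion X) p} = U
        rw [h1, ← preimage_comp]
        have : ((fun y : X => a • y) ∘ fun y => a⁻¹ • y) = id := by
          funext y; simp
        rw [this, preimage_id]
      · rintro ⟨n, rfl⟩
        exact ⟨n, (hinv2 a ha n).symm⟩⟩
    (by
      rw [sUnion_range]
      refine eq_univ_of_forall fun x => mem_iUnion.2 ?_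
      have hpos : 0 < dist (x : Completion X) p := dist_pos.2 (hcon x)
      obtain ⟨n, hn⟩ := exists_nat_one_div_lt hpos
      exact ⟨n, hn⟩)
  -- one of the sets is everything
  have key : ∃ N : ℕ, ∀ x : X, 1 / ((N : ℝ) + 1) < dist (x : Completion X) p := by
    choose c hc' using hV
    have hfin' : Finite 𝒱 := hfin
    obtain ⟨N, hN⟩ := (finite_univ.image (fun V : 𝒱 => c V.2)).bddAbove
    refine ⟨N, fun x => ?_⟩
    have hx : x ∈ ⋃₀ 𝒱 := by rw [hcov]; trivial
    obtain ⟨V, hV, hxV⟩ := hx
    have h1 : c hV ≤ N := hN ⟨⟨V, hV⟩, trivial, rfl⟩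
    have h2 : {x : X | 1 / ((c hV : ℝ) + 1) < dist (x : Completion X) p} = V := hc' hV
    rw [← h2] at hxV
    have h3 : 1 / ((c hV : ℝ) + 1) < dist (x : Completion X) p := hxV
    refine lt_of_le_of_lt ?_ h3
    apply one_div_le_one_div_of_le (by positivity)
    have : (c hV : ℝ) ≤ N := by exact_mod_cast h1
    linarith
  obtain ⟨N, hN⟩ := key
  obtain ⟨x, hx⟩ := Completion.denseRange_coe.exists_mem_open (isOpen_ball (x := p)
    (ε := 1 / ((N : ℝ) + 1))) ⟨p, mem_ball_self (by positivity)⟩
  exact absurd (hN x) (not_lt.2 (mem_ball.1 hx).le)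

/-- the theorem for a group of isometries -/
theorem core (hF : SubgroupFilter F) (hC : CACfin F) (hA : A ∈ F) [IsIsometricSMul A X]
    (hst : ∀ x : X, InModel F A fun a => a • x = x) (hc : CompactInModel F A X)
    (hunc : ¬ CountableInModel F A X) :
    ∃ f : ℝ → X, Function.Injective f ∧ InModel F A fun a => ∀ r, a • f r = f r := by
  have hucs : UniformContinuousConstSMul A X :=
    ⟨fun c => (isometry_smul X c).uniformContinuous⟩
  have htb := totallyBounded hF (fun a x y => (isometry_smul X a).dist_eq x y) hst hc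
  have hcY : CompactSpace (Completion X) := by
    refine ⟨?_⟩
    have h1 : TotallyBounded (range ((↑) : X → Completion X)) := by
      rw [← image_univ]
      exact htb.image (Completion.uniformContinuous_coe X)
    have h2 : TotallyBounded (univ : Set (Completion X)) := by
      rw [← Completion.denseRange_coe.closure_range]
      exact h1.closure
    exact h2.isCompact_of_isClosed isClosed_univ
  have hfin : ∀ E : Finset (Completion X), (E : Set (Completion X)) ⊆
      range ((↑) : X → Completion X) → InModel F A fun a => ∀ e ∈ E, a • e = e := by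
    intro E hE
    apply InModel.allFin hF
    intro e he
    obtain ⟨x, rfl⟩ := hE he
    refine (hst x).imp fun a ha => ?_
    rw [← Completion.coe_smul, ha]
  rcases Pool.Agent.H78.CM.vt_all (Completion X) (range ((↑) : X → Completion X))
    Completion.denseRange_coe with ⟨E, p, c, hE, hp, hcc, hc0, ⟨t1, ht1⟩, hfix⟩ | ⟨U, hUn, hUf, hUE,
      -, hU1⟩
  · -- an arc
    have hB : InModel F A fun a => ∀ t, a • c t = c t :=
      (hfin E hE).imp fun a ha t => hfix (rho a) ha t
    have hx : ∀ t, ∃ x : X, (x : Completion X) = c t := fun t =>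
      fixed_mem hc (c t) (hB.imp fun a ha => ha t)
    choose x hx using hx
    have hη : 0 < dist p (c t1) := dist_pos.2 (Ne.symm ht1)
    have hsurj : ∀ s ∈ Icc 0 (dist p (c t1)), ∃ t, dist p (c t) = s := by
      intro s hs
      have hcont : Continuous fun t => dist p (c t) := continuous_const.dist hcc
      have := mem_range_of_exists_le_of_exists_ge hcont (c := s)
        ⟨0, by rw [hc0, dist_self]; exact hs.1⟩ ⟨t1, hs.2⟩
      exact this
    choose! τ hτ using hsurj
    obtain ⟨e⟩ : Nonempty (ℝ ≃ Icc 0 (dist p (c t1))) := by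
      rw [← Cardinal.eq, Cardinal.mk_real, Cardinal.mk_Icc_real hη]
    refine ⟨fun r => x (τ (e r)), ?_, ?_⟩
    · intro r r' hrr
      have h1 : c (τ (e r)) = c (τ (e r')) :=
        (hx _).symm.trans ((congrArg ((↑) : X → Completion X) hrr).trans (hx _))
      have h2 : ((e r : Icc 0 (dist p (c t1))) : ℝ) = e r' := by
        rw [← hτ (e r) (e r).2, ← hτ (e r') (e r').2, h1]
      exact e.injective (Subtype.ext h2)
    · refine hB.imp fun a ha r => ?_
      apply Completion.coe_injective X
      rw [Completion.coe_smul, hx, ha]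
  · -- profinite group
    classical
    have hfq : ∀ n, Finite ((Completion X ≃ᵢ Completion X) ⧸ U n) := fun n => by
      have := hUf n
      infer_instance
    let act : ∀ n, MulAction A (Fin (Nat.card ((Completion X ≃ᵢ Completion X) ⧸ U n))) := fun n =>
      quotAct (U n) (rho (X := X) (A := A))
    have hact : ∀ n (a : A) (i : Fin (Nat.card ((Completion X ≃ᵢ Completion X) ⧸ U n))),
        a • i = i ↔ rho a ∈ U n := by
      intro n a i
      have hnor := hUn n
      exact quotAct_iff (U n) (rho (X := X) (A := A)) a i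
    have hne : ∀ n, Nonempty (Fin (Nat.card ((Completion X ≃ᵢ Completion X) ⧸ U n))) := fun n =>
      ⟨Finite.equivFin _ ((1 : Completion X ≃ᵢ Completion X) :
        (Completion X ≃ᵢ Completion X) ⧸ U n)⟩
    obtain ⟨f, hf⟩ := hC A hA
      (fun n => Fin (Nat.card ((Completion X ≃ᵢ Completion X) ⧸ U n))) (by
        intro n y
        obtain ⟨E, hE, hEU⟩ := hUE n
        refine (hfin E hE).imp fun a ha => ?_
        exact (hact n a y).2 (hEU (rho a) ha))
    have htriv : InModel F A fun a => ∀ y : Completion X, a • y = y := by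
      refine hf.imp fun a ha y => ?_
      have h1 : rho a = (1 : Completion X ≃ᵢ Completion X) :=
        hU1 _ fun n => (hact n a (f n)).1 (ha n)
      rw [← rho_apply, h1]; rfl
    have htrivX : InModel F A fun a => ∀ x : X, a • x = x := by
      refine htriv.imp fun a ha x => ?_
      apply Completion.coe_injective X
      rw [Completion.coe_smul, ha]
    have hsurj : ∀ p : Completion X, ∃ x : X, (x : Completion X) = p := fun p =>
      fixed_mem hc p (htriv.imp fun a ha => ha p)
    have hcX : CompactSpace X := by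
      refine ⟨?_⟩
      rw [Completion.coe_isometry.isUniformInducing.isInducing.isCompact_iff, image_univ,
        range_eq_univ.2 hsurj]
      exact isCompact_univ
    have hXunc : ¬ (univ : Set X).Countable := by
      intro hcount
      have : Countable X := countable_univ_iff.1 hcount
      obtain ⟨g, hg⟩ := exists_injective_nat X
      exact hunc ⟨g, hg, htrivX.imp fun a ha x => by rw [ha]⟩
    obtain ⟨g, -, -, hg⟩ := IsClosed.exists_nat_bool_injection_of_not_countable
      (isClosed_univ (X := X)) hXunc
    obtain ⟨e2⟩ : Nonempty (ℝ ≃ (ℕ → Bool)) := by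
      rw [← Cardinal.eq, Cardinal.mk_real]
      simp
    exact ⟨fun r => g (e2 r), hg.comp e2.injective, htrivX.imp fun a ha r => ha _⟩

end

/-- In every permutation model in which `CAC_fin` holds, every uncountable compact metric space has
size at least `2^ℵ₀`. -/
theorem result : ∀ (G : Type u) [Group G] (F : Set (Subgroup G)), SubgroupFilter F → CACfin F →
    ∀ A ∈ F, ∀ (X : Type v) [MetricSpace X] [MulAction A X],
    (∀ x : X, InModel F A fun a => a • x = x) →
    (InModel F A fun a => ∀ x y : X, dist (a • x) (a • y) = dist x y) →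
    CompactInModel F A X → ¬ CountableInModel F A X →
    ∃ f : ℝ → X, Function.Injective f ∧ InModel F A fun a => ∀ r, a • f r = f r := by
  intro G _ F hF hC A hA X _ _ hst hiso hc hunc
  obtain ⟨B, hB, hiso⟩ := hiso
  -- the group of the isometries
  obtain ⟨A', hA'⟩ : ∃ A' : Subgroup G, A' = A ⊓ B := ⟨_, rfl⟩
  have hle : A' ≤ A := by rw [hA']; exact inf_le_left
  have hleB : A' ≤ B := by rw [hA']; exact inf_le_right
  have hA'F : A' ∈ F := by rw [hA']; exact hF.inf_mem A hA B hB
  let act : MulAction A' X := MulAction.compHom X (Subgroup.inclusion hle)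
  have hact : ∀ (a : A') (x : X), a • x = (Subgroup.inclusion hle a) • x := fun _ _ => rfl
  have hiso' : IsIsometricSMul A' X := ⟨fun a => Isometry.of_dist_eq fun x y => by
    rw [hact, hact]
    exact hiso (Subgroup.inclusion hle a) (hleB a.2) x y⟩
  have down : ∀ {P : A → Prop}, InModel F A P → InModel F A' fun a => P (Subgroup.inclusion hle a) :=
    fun ⟨C, hC, h⟩ => ⟨C, hC, fun a ha => h _ ha⟩
  have up : ∀ {P : A → Prop}, (InModel F A' fun a => P (Subgroup.inclusion hle a)) →
      InModel F A P := fun ⟨C, hC, h⟩ => ⟨C ⊓ A', hF.inf_mem C hC A' hA'F, fun a ha =>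
        h ⟨a, ha.2⟩ ha.1⟩
  obtain ⟨f, hf, hf2⟩ := core (A := A') (X := X) hF hC hA'F (fun x => down (hst x))
    (fun 𝒰 h1 h2 h3 => hc 𝒰 (fun U hU => ⟨(h1 U hU).1,
      up (P := fun a => ∀ x, a • x ∈ U ↔ x ∈ U) (h1 U hU).2⟩)
      (up (P := fun a => ∀ U, (fun x => a • x) ⁻¹' U ∈ 𝒰 ↔ U ∈ 𝒰) h2) h3)
    (fun ⟨g, hg, hg2⟩ => hunc ⟨g, hg, up (P := fun a => ∀ x, g (a • x) = g x) hg2⟩)
  exact ⟨f, hf, up (P := fun a => ∀ r, a • f r = f r) hf2⟩

end Pool.Agent.Results.MP_308708_lc.PermutationModels
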