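import Pool.Agent.H41.CZ.Fin

/-!
# MP_308708_lc: the implication holds in all transitive models of ZF

`ZFSet.{0}` is the universe of sets; a class of sets is a predicate `M : ZFSet → Prop`. The
formulas of set theory (`SF.Fml`), their satisfaction in `(M, ∈)` (`SF.Sat`) and the axioms of `ZF`
without the power set axiom (`SF.ZFm`: `M` is transitive, pairing, union, infinity, separation and
collection for all formulas with parameters; extensionality and foundation hold in every transitive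
class) are defined in `Pool/Agent/H45/SF/Stmt.lean`.

A topological space which belongs to `M` is a pair `(X, τ)` of elements of `M`.
-/

open Ordinal

namespace Pool.Agent.Results.MP_308708_lc.TransitiveModels

/-- The transitive class `M` satisfies `ZF`. -/
structure ZF (M : ZFSet.{0} → Prop) : Prop extends SF.ZFm M where
  pow : ∀ x, M x → ∃ y, M y ∧ ∀ z, M z → z ⊆ x → z ∈ y

/-- the natural number `n` as a set -/
noncomputable def nat (n : ℕ) : ZFSet.{0} := (n : Ordinal.{0}).toZFSet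

/-- the set `ω` -/
noncomputable def omega : ZFSet.{0} := (ω : Ordinal.{0}).toZFSet

/-- the function `n ↦ A n` on `ω`, as a set of ordered pairs -/
noncomputable def seq (A : ℕ → ZFSet.{0}) : ZFSet.{0} :=
  ZFSet.range fun n : ℕ => ZFSet.pair (nat n) (A n)

/-- `CAC_fin` holds in `M`: every sequence in `M` of nonempty finite sets has a choice function
in `M`. -/
def CACfin (M : ZFSet.{0} → Prop) : Prop := ∀ A : ℕ → ZFSet.{0}, M (seq A) →
  (∀ n, (A n : Set ZFSet.{0}).Finite ∧ (A n).Nonempty) →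
    ∃ a : ℕ → ZFSet.{0}, M (seq a) ∧ ∀ n, a n ∈ A n

/-- `CAC_fin` holds in `M` for sequences of subsets of `S`. -/
def CACfinOn (M : ZFSet.{0} → Prop) (S : ZFSet.{0}) : Prop := ∀ A : ℕ → ZFSet.{0}, M (seq A) →
  (∀ n, (A n : Set ZFSet.{0}).Finite ∧ (A n).Nonempty ∧ A n ⊆ S) →
    ∃ a : ℕ → ZFSet.{0}, M (seq a) ∧ ∀ n, a n ∈ A n

/-- `d` is a metric on `X` which belongs to `M` (as a function from `X × X` to the Dedekind
reals): the relations `n * d x y < m` and `m < n * d x y` between elements `x`, `y` of `X` and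
natural numbers `m`, `n` belong to `M`. -/
structure MetricIn (M : ZFSet.{0} → Prop) (X : ZFSet.{0}) (d : ZFSet.{0} → ZFSet.{0} → ℝ) :
    Prop where
  self : ∀ x ∈ X, d x x = 0
  eq : ∀ x ∈ X, ∀ y ∈ X, d x y = 0 → x = y
  symm : ∀ x ∈ X, ∀ y ∈ X, d x y = d y x
  tri : ∀ x ∈ X, ∀ y ∈ X, ∀ z ∈ X, d x z ≤ d x y + d y z
  lt : ∃ L, M L ∧ ∀ x ∈ X, ∀ y ∈ X, ∀ m n : ℕ,
    ZFSet.pair x (ZFSet.pair y (ZFSet.pair (nat m) (nat n))) ∈ L ↔ n * d x y < m
  gt : ∃ U, M U ∧ ∀ x ∈ X, ∀ y ∈ X, ∀ m n : ℕ,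
    ZFSet.pair x (ZFSet.pair y (ZFSet.pair (nat m) (nat n))) ∈ U ↔ m < n * d x y

/-- `(X, τ)` is, in `M`, a compact metrizable topological space: `τ` is the set of the open sets
(in `M`) of a metric on `X` in `M`, and every cover in `M` of `X` by elements of `τ` has a finite
subcover. -/
structure CompactMetrizableIn (M : ZFSet.{0} → Prop) (X τ : ZFSet.{0}) : Prop where
  space : M X
  topology : M τ
  metrizable : ∃ d : ZFSet.{0} → ZFSet.{0} → ℝ, MetricIn M X d ∧ ∀ U, U ∈ τ ↔
    M U ∧ U ⊆ X ∧ ∀ x ∈ U, ∃ ε > 0, ∀ y ∈ X, d x y < ε → y ∈ U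
  compact : ∀ C, M C → C ⊆ τ → (∀ x ∈ X, ∃ U ∈ C, x ∈ U) →
    ∃ F : ZFSet.{0}, F ⊆ C ∧ (F : Set ZFSet.{0}).Finite ∧ ∀ x ∈ X, ∃ U ∈ F, x ∈ U

/-- `|x| ≤ |y|` holds in `M`: there is an injection of `x` into `y` in `M`. -/
def InjIn (M : ZFSet.{0} → Prop) (x y : ZFSet.{0}) : Prop := ∃ f, M f ∧ ZFSet.IsFunc x y f ∧
  ∀ s t z, ZFSet.pair s z ∈ f → ZFSet.pair t z ∈ f → s = t

/-- the power set of `ω` in `M`; in `M` it has the size of the set of the real numbers -/
noncomputable def reals (M : ZFSet.{0} → Prop) : ZFSet.{0} := (ZFSet.powerset omega).sep M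

/-- In every transitive model of `ZF` and `CAC_fin` every uncountable compact metrizable space has
size at least `2 ^ ℵ₀`. More generally, in a transitive model of `ZF` this holds for the compact
metrizable space `X` if `CAC_fin` holds for sequences of finite subsets of `P (P (ω × X))`. -/
theorem result :
    (∀ M : ZFSet.{0} → Prop, ZF M → CACfin M → ∀ X τ, CompactMetrizableIn M X τ →
      ¬ InjIn M X omega → InjIn M (reals M) X) ∧
    (∀ M : ZFSet.{0} → Prop, ZF M → ∀ X τ, CompactMetrizableIn M X τ →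
      CACfinOn M (ZFSet.powerset (ZFSet.powerset (ZFSet.prod omega X))) →
      ¬ InjIn M X omega → InjIn M (reals M) X) := by
  have key : ∀ M : ZFSet.{0} → Prop, ZF M → ∀ X τ, CompactMetrizableIn M X τ →
      CACfinOn M (ZFSet.powerset (ZFSet.powerset (ZFSet.prod omega X))) →
      ¬ InjIn M X omega → InjIn M (reals M) X := by
    intro M hM X τ hX hc hne
    obtain ⟨d, hd, hτ⟩ := hX.metrizable
    have hZ : CZ.ZF M := { toZFm := hM.toZFm, pow := hM.pow }
    have hd' : CZ.MetricIn M X d :=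
      { mem := hX.space, self := hd.self, eq := hd.eq, symm := hd.symm, tri := hd.tri,
        lt := hd.lt, gt := hd.gt }
    refine CZ.mainL M hZ X d hd' ?_ hc hne
    intro C hC hop hcov
    refine hX.compact C hC (fun U hU => ?_) hcov
    exact (hτ U).2 ⟨hM.trans C hC U hU, (hop U hU).1, (hop U hU).2⟩
  exact ⟨fun M hM hc X τ hX hne => key M hM X τ hX
    (fun A hA h => hc A hA fun n => ⟨(h n).1, (h n).2.1⟩) hne, key⟩

end Pool.Agent.Results.MP_308708_lc.TransitiveModels
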